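import Mathlib

/-!
The 11-coloured binary partition function is never divisible by 32: the finite computation.
-/

set_option autoImplicit false

namespace Pool.Agent.H428R3.Bin

/-! ### Computations with polynomials in `U = 1/(1-X)` modulo 32, stored as lists -/

/-- forces evaluation of the argument -/
def force {α : Type} (x : ℕ) (k : ℕ → α) : α :=
  match x with
  | 0 => k 0
  | n + 1 => k (n + 1)

theorem force_eq {α : Type} (x : ℕ) (k : ℕ → α) : force x k = k x := by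
  cases x <;> rfl

/-- `(f0, f1) ↦ (U f0 + (U - 1) f1, U f0 + U f1)` on coefficient lists -/
def mulU : ℕ → List (ℕ × ℕ) → List (ℕ × ℕ)
  | c, [] => [(c, c)]
  | c, (a, b) :: l =>
    force ((c + 31 * b) % 32) fun p => force ((a + b) % 32) fun s => (p, c) :: mulU s l

/-- adding a constant to the first component -/
def addHead (a : ℕ) : List (ℕ × ℕ) → List (ℕ × ℕ)
  | [] => [(a, 0)]
  | (p, q) :: l => force ((a + p) % 32) fun r => (r, q) :: l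

/-- even and odd part of a polynomial in `U` -/
def horner : List ℕ → List (ℕ × ℕ)
  | [] => []
  | a :: l => addHead a (mulU 0 (horner l))

/-- iterate `mulU` -/
def mulUn : ℕ → List (ℕ × ℕ) → List (ℕ × ℕ)
  | 0, f => f
  | n + 1, f => mulU 0 (mulUn n f)

/-- force all entries and separate the components -/
def sep {α : Type} : List (ℕ × ℕ) → (List ℕ → List ℕ → α) → α
  | [], k => k [] []
  | (a, b) :: l, k => force a fun a' => force b fun b' => sep l fun x y => k (a' :: x) (b' :: y)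

/-- all entries are zero -/
def allZ : List ℕ → Bool
  | [] => true
  | a :: k => Nat.beq a 0 && allZ k

/-- equality up to trailing zeros -/
def eqT : List ℕ → List ℕ → Bool
  | [], l => allZ l
  | a :: k, [] => Nat.beq a 0 && eqT k []
  | a :: k, b :: l => Nat.beq a b && eqT k l

def memT (x : List ℕ) : List (List ℕ) → Bool
  | [] => false
  | y :: l => eqT x y || memT x l

/-- sum of the entries -/
def sumL : List ℕ → ℕ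
  | [] => 0
  | a :: l => a + sumL l

/-- the 70 states -/
def S : List (List ℕ) := [
[1],
[0,0,0,0,0,0,21,28,16],
[0,0,0,0,0,0,31,28,16],
[0,0,0,0,0,0,0,0,0,9,24],
[0,0,0,0,0,0,0,0,0,21,24],
[0,0,0,0,0,0,0,0,0,19,24],
[0,0,0,0,0,0,0,0,0,31,24],
[0,0,0,0,0,0,0,0,0,0,9,16,8],
[0,0,0,0,0,0,0,0,0,0,0,4,8],
[0,0,0,0,0,0,0,0,0,0,21,16,8],
[0,0,0,0,0,0,0,0,0,0,0,20,8],
[0,0,0,0,0,0,0,0,0,0,19,0,24],
[0,0,0,0,0,0,0,0,0,0,0,28,24],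
[0,0,0,0,0,0,0,0,0,0,31,0,24],
[0,0,0,0,0,0,0,0,0,0,0,12,24],
[0,0,0,0,0,0,0,0,0,0,0,13,4,16],
[0,0,0,0,0,0,0,0,0,0,0,9,28,16],
[0,0,0,0,0,0,0,0,0,0,0,28,16],
[0,0,0,0,0,0,0,0,0,0,0,0,16],
[0,0,0,0,0,0,0,0,0,0,0,9,20,16],
[0,0,0,0,0,0,0,0,0,0,0,21,12,16],
[0,0,0,0,0,0,0,0,0,0,0,12,16],
[0,0,0,0,0,0,0,0,0,0,0,15,12,16],
[0,0,0,0,0,0,0,0,0,0,0,19,20,16],
[0,0,0,0,0,0,0,0,0,0,0,4,16],
[0,0,0,0,0,0,0,0,0,0,0,11,28,16],
[0,0,0,0,0,0,0,0,0,0,0,31,4,16],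
[0,0,0,0,0,0,0,0,0,0,0,20,16],
[0,0,0,0,0,0,0,0,0,0,0,19,30,16],
[0,0,0,0,0,0,0,0,0,0,0,0,26],
[0,0,0,0,0,0,0,0,0,0,0,23,14,16],
[0,0,0,0,0,0,0,0,0,0,0,0,10],
[0,0,0,0,0,0,0,0,0,0,0,0,24],
[0,0,0,0,0,0,0,0,0,0,0,23,6,16],
[0,0,0,0,0,0,0,0,0,0,0,0,18],
[0,0,0,0,0,0,0,0,0,0,0,11,22,16],
[0,0,0,0,0,0,0,0,0,0,0,0,2],
[0,0,0,0,0,0,0,0,0,0,0,17,10,16],
[0,0,0,0,0,0,0,0,0,0,0,0,30],
[0,0,0,0,0,0,0,0,0,0,0,13,26,16],
[0,0,0,0,0,0,0,0,0,0,0,0,14],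
[0,0,0,0,0,0,0,0,0,0,0,0,8],
[0,0,0,0,0,0,0,0,0,0,0,21,18,16],
[0,0,0,0,0,0,0,0,0,0,0,0,22],
[0,0,0,0,0,0,0,0,0,0,0,1,2,16],
[0,0,0,0,0,0,0,0,0,0,0,0,6],
[0,0,0,0,0,0,0,0,0,0,0,13,20],
[0,0,0,0,0,0,0,0,0,0,0,0,4,16],
[0,0,0,0,0,0,0,0,0,0,0,0,10,16],
[0,0,0,0,0,0,0,0,0,0,0,0,6,16],
[0,0,0,0,0,0,0,0,0,0,0,9,12],
[0,0,0,0,0,0,0,0,0,0,0,0,12,16],
[0,0,0,0,0,0,0,0,0,0,0,0,26,16],
[0,0,0,0,0,0,0,0,0,0,0,0,22,16],
[0,0,0,0,0,0,0,0,0,0,0,9,4],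
[0,0,0,0,0,0,0,0,0,0,0,0,20,16],
[0,0,0,0,0,0,0,0,0,0,0,0,2,16],
[0,0,0,0,0,0,0,0,0,0,0,0,14,16],
[0,0,0,0,0,0,0,0,0,0,0,21,28],
[0,0,0,0,0,0,0,0,0,0,0,0,28,16],
[0,0,0,0,0,0,0,0,0,0,0,0,18,16],
[0,0,0,0,0,0,0,0,0,0,0,0,30,16],
[0,0,0,0,0,0,0,0,0,0,0,15,28],
[0,0,0,0,0,0,0,0,0,0,0,19,4],
[0,0,0,0,0,0,0,0,0,0,0,11,12],
[0,0,0,0,0,0,0,0,0,0,0,31,20],
[0,0,0,0,0,0,0,0,0,0,0,0,20],
[0,0,0,0,0,0,0,0,0,0,0,0,28],
[0,0,0,0,0,0,0,0,0,0,0,0,4],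
[0,0,0,0,0,0,0,0,0,0,0,0,12]
]

def checkOne (w : List ℕ) : Bool :=
  !(Nat.beq (sumL w % 32) 0) &&
    sep (mulUn 11 (horner w)) fun x y => memT x S && memT y S

def checkAll : List (List ℕ) → Bool
  | [] => true
  | w :: l => checkOne w && checkAll l

theorem checkAll_mem : ∀ l : List (List ℕ), checkAll l = true → ∀ w ∈ l, checkOne w = true
  | [], _, w, hw => by simp at hw
  | y :: l, h, w, hw => by
    simp only [checkAll, Bool.and_eq_true] at h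
    rcases List.mem_cons.1 hw with h1 | h1
    · rw [h1]; exact h.1
    · exact checkAll_mem l h.2 w h1

theorem check1 : checkOne [1] = true := by decide +kernel

theorem check_S : checkAll S = true := by decide +kernel

end Pool.Agent.H428R3.Bin
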