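import Mathlib
import Pool.Agent.H428R3.Bin.Comp

/-!
The 11-coloured binary partition function is never divisible by 32: the proof.
-/

set_option autoImplicit false

namespace Pool.Agent.H428R3.Bin

open PowerSeries

abbrev R := ZMod 32

/-- substitution of `X ^ 2` for `X` -/
noncomputable def ph : PowerSeries R →ₐ[R] PowerSeries R := expand 2 two_ne_zero

/-- `1 / (1 - X)` -/
noncomputable def U : PowerSeries R := mk 1

noncomputable def ev : List ℕ → PowerSeries R
  | [] => 0
  | a :: l => C (a : R) + U * ev l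

noncomputable def ev0 : List (ℕ × ℕ) → PowerSeries R
  | [] => 0
  | (a, _) :: l => C (a : R) + U * ev0 l

noncomputable def ev1 : List (ℕ × ℕ) → PowerSeries R
  | [] => 0
  | (_, b) :: l => C (b : R) + U * ev1 l

theorem cast_mod (x : ℕ) : ((x % 32 : ℕ) : R) = (x : R) := by
  rw [ZMod.natCast_mod]

theorem ev_mulU (l : List (ℕ × ℕ)) : ∀ c : ℕ,
    ev0 (mulU c l) = C (c : R) + U * (ev0 l + ev1 l) - ev1 l ∧
      ev1 (mulU c l) = C (c : R) + U * (ev0 l + ev1 l) := by
  induction l with
  | nil => intro c; simp [mulU, ev0, ev1]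
  | cons ab l ih =>
    intro c
    obtain ⟨a, b⟩ := ab
    simp only [mulU, force_eq]
    have h := ih ((a + b) % 32)
    have h32 : (31 : R) = -1 := by decide
    constructor
    · simp only [ev0, ev1, h.1, cast_mod, Nat.cast_add, Nat.cast_mul, Nat.cast_ofNat, h32, map_add,
        map_mul, map_neg, map_one]
      ring
    · simp only [ev0, ev1, h.2, cast_mod, Nat.cast_add, map_add]
      ring

theorem U_mul : U * (1 - X) = 1 := mk_one_mul_one_sub_eq_one R

theorem X_mul_U : X * U = U - 1 := by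
  have := U_mul
  linear_combination -this

theorem U_eq : U = (1 + X) * ph U := by
  have h1 : ph U * (1 - X ^ 2) = 1 := by
    have h := congrArg ph U_mul
    rw [map_mul, map_sub, map_one] at h
    have hX : ph X = X ^ 2 := expand_X 2 two_ne_zero
    rwa [hX] at h
  have h2 := U_mul
  calc U = U * (ph U * (1 - X ^ 2)) := by rw [h1, mul_one]
    _ = (U * (1 - X)) * ((1 + X) * ph U) := by ring
    _ = _ := by rw [h2, one_mul]

theorem U_mul_parts (f0 f1 : PowerSeries R) :
    U * (ph f0 + X * ph f1) = ph (U * (f0 + f1) - f1) + X * ph (U * (f0 + f1)) := by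
  have h1 : ph (X * U) = ph (U - 1) := by rw [X_mul_U]
  have hX : ph X = X ^ 2 := expand_X 2 two_ne_zero
  rw [map_mul, hX, map_sub, map_one] at h1
  conv_lhs => rw [U_eq]
  simp only [map_sub, map_mul, map_add]
  linear_combination (ph f1) * h1

theorem ev_addHead (a : ℕ) (l : List (ℕ × ℕ)) :
    ev0 (addHead a l) = C (a : R) + ev0 l ∧ ev1 (addHead a l) = ev1 l := by
  cases l with
  | nil => simp [addHead, ev0, ev1]
  | cons pq l =>
    obtain ⟨p, q⟩ := pq
    simp only [addHead, force_eq, ev0, ev1, cast_mod, Nat.cast_add, map_add]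
    constructor
    · ring
    · trivial

theorem ev_horner (w : List ℕ) :
    ev w = ph (ev0 (horner w)) + X * ph (ev1 (horner w)) := by
  induction w with
  | nil => simp [ev, horner, ev0, ev1]
  | cons a l ih =>
    have h1 := ev_addHead a (mulU 0 (horner l))
    have h2 := ev_mulU (horner l) 0
    simp only [horner]
    rw [h1.1, h1.2, h2.1, h2.2, ev, ih, U_mul_parts]
    have hC : ph (C (a : R)) = C (a : R) := expand_C 2 two_ne_zero _
    simp only [map_add, hC, Nat.cast_zero, map_zero, zero_add]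
    ring

theorem ev_mulUn (n : ℕ) (l : List (ℕ × ℕ)) :
    U ^ n * (ph (ev0 l) + X * ph (ev1 l)) =
      ph (ev0 (mulUn n l)) + X * ph (ev1 (mulUn n l)) := by
  induction n with
  | zero => simp [mulUn]
  | succ n ih =>
    have h2 := ev_mulU (mulUn n l) 0
    rw [pow_succ', mul_assoc, ih, U_mul_parts]
    simp only [mulUn]
    rw [h2.1, h2.2]
    simp

/-- the partial products -/
noncomputable def G (K : ℕ) : PowerSeries R :=
  (∏ i ∈ Finset.range K, mk (fun j : ℕ => if 2 ^ i ∣ j then (1 : R) else 0)) ^ 11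

theorem ph_mk (i : ℕ) :
    ph (mk (fun j : ℕ => if 2 ^ i ∣ j then (1 : R) else 0)) =
      mk (fun j : ℕ => if 2 ^ (i + 1) ∣ j then (1 : R) else 0) := by
  ext n
  rw [ph, coeff_expand, coeff_mk]
  by_cases h : 2 ∣ n
  · obtain ⟨m, rfl⟩ := h
    rw [if_pos (Dvd.intro m rfl), coeff_mk, Nat.mul_div_cancel_left m (by norm_num)]
    have : 2 ^ (i + 1) ∣ 2 * m ↔ 2 ^ i ∣ m := by
      rw [pow_succ, mul_comm]
      exact Nat.mul_dvd_mul_iff_left (by norm_num)
    simp only [this]
  · rw [if_neg h, coeff_mk, if_neg]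
    intro h'
    exact h (dvd_trans (dvd_pow_self 2 (by omega)) h')

theorem G_succ (K : ℕ) : G (K + 1) = U ^ 11 * ph (G K) := by
  have h0 : (mk (fun j : ℕ => if 2 ^ 0 ∣ j then (1 : R) else 0)) = U := by
    ext n
    simp [U]
  rw [G, G, Finset.prod_range_succ', h0, map_pow, map_prod, mul_pow, mul_comm]
  congr 2
  exact Finset.prod_congr rfl fun i _ => (ph_mk i).symm

theorem coeff_even (f0 f1 : PowerSeries R) (n : ℕ) :
    coeff (2 * n) (ph f0 + X * ph f1) = coeff n f0 := by
  rw [map_add, ph, coeff_expand_mul]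
  cases n with
  | zero => simp
  | succ n =>
    have : 2 * (n + 1) = (2 * n + 1) + 1 := by ring
    rw [this, coeff_succ_X_mul, coeff_expand_of_not_dvd, add_zero]
    omega

theorem coeff_odd (f0 f1 : PowerSeries R) (n : ℕ) :
    coeff (2 * n + 1) (ph f0 + X * ph f1) = coeff n f1 := by
  rw [map_add, coeff_succ_X_mul, ph, coeff_expand_mul, coeff_expand_of_not_dvd, zero_add]
  omega

theorem allZ_ev : ∀ l : List ℕ, allZ l = true → ev l = 0
  | [], _ => rfl
  | a :: l, h => by
    simp only [allZ, Bool.and_eq_true, Nat.beq_eq] at h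
    rw [ev, h.1, allZ_ev l h.2]
    simp

theorem eqT_ev : ∀ k l : List ℕ, eqT k l = true → ev k = ev l
  | [], l, h => by
    rw [eqT] at h
    rw [allZ_ev l h, ev]
  | a :: k, [], h => by
    simp only [eqT, Bool.and_eq_true, Nat.beq_eq] at h
    have h2 := eqT_ev k [] h.2
    simp only [ev] at h2 ⊢
    rw [h2, h.1]
    simp
  | a :: k, b :: l, h => by
    simp only [eqT, Bool.and_eq_true, Nat.beq_eq] at h
    rw [ev, ev, h.1, eqT_ev k l h.2]

theorem memT_ev (x : List ℕ) : ∀ l : List (List ℕ), memT x l = true → ∃ y ∈ l, ev x = ev y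
  | [], h => by simp [memT] at h
  | y :: l, h => by
    simp only [memT, Bool.or_eq_true] at h
    rcases h with h | h
    · exact ⟨y, by simp, eqT_ev _ _ h⟩
    · obtain ⟨z, hz, he⟩ := memT_ev x l h
      exact ⟨z, List.mem_cons_of_mem _ hz, he⟩

theorem sep_eq {α : Type} : ∀ (l : List (ℕ × ℕ)) (k : List ℕ → List ℕ → α),
    sep l k = k (l.map Prod.fst) (l.map Prod.snd)
  | [], k => rfl
  | (a, b) :: l, k => by
    simp only [sep, force_eq, List.map_cons]
    rw [sep_eq l]

theorem ev_fst : ∀ l : List (ℕ × ℕ), ev (l.map Prod.fst) = ev0 l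
  | [] => rfl
  | (a, b) :: l => by simp only [List.map_cons, ev, ev0, ev_fst l]

theorem ev_snd : ∀ l : List (ℕ × ℕ), ev (l.map Prod.snd) = ev1 l
  | [] => rfl
  | (a, b) :: l => by simp only [List.map_cons, ev, ev1, ev_snd l]

theorem constCoeff_ev (l : List ℕ) : coeff 0 (ev l) = ((sumL l : ℕ) : R) := by
  induction l with
  | nil => simp [ev, sumL]
  | cons a l ih =>
    rw [ev, map_add, sumL, Nat.cast_add]
    have h1 : coeff 0 (U * ev l) = coeff 0 (ev l) := by
      rw [coeff_zero_eq_constantCoeff_apply, map_mul, ← coeff_zero_eq_constantCoeff_apply]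
      simp [U]
    rw [h1, ih]
    simp

theorem main_ne (K : ℕ) : ∀ n < 2 ^ K, ∀ w ∈ S, coeff n (ev w * G K) ≠ 0 := by
  induction K with
  | zero =>
    intro n hn w hw
    have hn0 : n = 0 := by simpa using hn
    subst hn0
    have hc := checkAll_mem S check_S w hw
    simp only [checkOne, Bool.and_eq_true, Bool.not_eq_true', ] at hc
    have hG : G 0 = 1 := by simp [G]
    rw [hG, mul_one, constCoeff_ev]
    intro h0
    rw [ZMod.natCast_eq_zero_iff] at h0
    have h1 := hc.1
    rw [Nat.mod_eq_zero_of_dvd h0] at h1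
    simp at h1
  | succ K ih =>
    intro n hn w hw
    have hc := checkAll_mem S check_S w hw
    simp only [checkOne, Bool.and_eq_true] at hc
    have hc2 := hc.2
    rw [sep_eq, Bool.and_eq_true] at hc2
    obtain ⟨y0, hy0, he0⟩ := memT_ev _ _ hc2.1
    obtain ⟨y1, hy1, he1⟩ := memT_ev _ _ hc2.2
    rw [ev_fst] at he0
    rw [ev_snd] at he1
    have key : ev w * G (K + 1) = ph (ev y0 * G K) + X * ph (ev y1 * G K) := by
      rw [G_succ, ev_horner w]
      have h := ev_mulUn 11 (horner w)
      rw [he0, he1] at h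
      rw [map_mul, map_mul]
      linear_combination (ph (G K)) * h
    rw [key]
    rcases Nat.even_or_odd' n with ⟨m, rfl | rfl⟩
    · rw [coeff_even]
      exact ih m (by rw [pow_succ] at hn; omega) y0 hy0
    · rw [coeff_odd]
      exact ih m (by rw [pow_succ] at hn; omega) y1 hy1

theorem not_dvd (n : ℕ) : ¬ (32 ∣ coeff n
    ((∏ i ∈ Finset.range (n + 1),
      PowerSeries.mk (fun j : ℕ => if 2 ^ i ∣ j then (1 : ℕ) else 0)) ^ 11)) := by
  intro h
  have hmem : [1] ∈ S := by decide
  have h1 := main_ne (n + 1) n (Nat.lt_of_lt_of_le Nat.lt_two_pow_self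
    (Nat.pow_le_pow_right (by norm_num) (by omega))) [1] hmem
  apply h1
  have h2 : ev [1] = 1 := by simp [ev]
  rw [h2, one_mul]
  have h3 : G (n + 1) = PowerSeries.map (Nat.castRingHom R) ((∏ i ∈ Finset.range (n + 1),
      PowerSeries.mk (fun j : ℕ => if 2 ^ i ∣ j then (1 : ℕ) else 0)) ^ 11) := by
    rw [map_pow, map_prod, G]
    congr 1
    refine Finset.prod_congr rfl fun i _ => ?_
    ext j
    rw [coeff_map, coeff_mk, coeff_mk]
    split_ifs <;> simp
  rw [h3, coeff_map]
  have := (ZMod.natCast_eq_zero_iff _ 32).2 h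
  simpa using this

end Pool.Agent.H428R3.Bin
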